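import Pool.Agent.ISB.StmtsA

/-!
# Squad ISB: row MLT (multilinearity of left normed brackets)
-/

set_option autoImplicit false

namespace Pool.Agent.ISB.H98

open scoped Classical commutatorElement

variable {F L : Type} [Field F] [LieRing L] [LieAlgebra F L]

theorem br_span (X Y : Set L) : br (Submodule.span F X) (Submodule.span F Y) =
    Submodule.span F {z | ∃ x ∈ X, ∃ y ∈ Y, z = ⁅x, y⁆} := by
  apply le_antisymm
  · refine Submodule.span_le.2 ?_
    rintro z ⟨a, ha, b, hb, rfl⟩
    show ⁅a, b⁆ ∈ Submodule.span F {z | ∃ x ∈ X, ∃ y ∈ Y, z = ⁅x, y⁆}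
    induction ha using Submodule.span_induction with
    | mem x hx =>
      induction hb using Submodule.span_induction with
      | mem y hy => exact Submodule.subset_span ⟨x, hx, y, hy, rfl⟩
      | zero => rw [lie_zero]; exact Submodule.zero_mem _
      | add y y' _ _ h1 h2 => rw [lie_add]; exact Submodule.add_mem _ h1 h2
      | smul c y _ h1 => rw [lie_smul]; exact Submodule.smul_mem _ _ h1
    | zero => rw [zero_lie]; exact Submodule.zero_mem _
    | add x x' _ _ h1 h2 => rw [add_lie]; exact Submodule.add_mem _ h1 h2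
    | smul c x _ h1 => rw [smul_lie]; exact Submodule.smul_mem _ _ h1
  · refine Submodule.span_mono ?_
    rintro z ⟨x, hx, y, hy, rfl⟩
    exact ⟨x, Submodule.subset_span hx, y, Submodule.subset_span hy, rfl⟩

theorem ln_append (u : L) (cs : List L) (c : L) : ln u (cs ++ [c]) = ⁅ln u cs, c⁆ := by
  unfold ln
  rw [List.foldl_append]
  rfl

theorem mlt1 (X Y : Set L) (p : ℕ) : itr (Submodule.span F X) (Submodule.span F Y) p =
    Submodule.span F {z | ∃ u ∈ X, ∃ cs : List L, cs.length = p ∧ (∀ c ∈ cs, c ∈ Y) ∧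
      z = ln u cs} := by
  induction p with
  | zero =>
    show Submodule.span F X = _
    congr 1
    ext z
    constructor
    · intro hz
      exact ⟨z, hz, [], rfl, fun c hc => absurd hc List.not_mem_nil, rfl⟩
    · rintro ⟨u, hu, cs, hcs, -, rfl⟩
      rw [List.length_eq_zero_iff] at hcs
      subst hcs
      exact hu
  | succ p ih =>
    show br (itr (Submodule.span F X) (Submodule.span F Y) p) (Submodule.span F Y) = _
    rw [ih, br_span]
    congr 1
    ext z
    constructor
    · rintro ⟨x, ⟨u, hu, cs, hcs, hcY, rfl⟩, y, hy, rfl⟩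
      refine ⟨u, hu, cs ++ [y], by simp [hcs], ?_, (ln_append u cs y).symm⟩
      intro c hc
      rcases List.mem_append.1 hc with h | h
      · exact hcY c h
      · rw [List.mem_singleton.1 h]; exact hy
    · rintro ⟨u, hu, cs, hcs, hcY, rfl⟩
      rcases List.eq_nil_or_concat cs with h | ⟨cs', c, h⟩
      · rw [h] at hcs; simp at hcs
      · rw [List.concat_eq_append] at h
        subst h
        refine ⟨ln u cs', ⟨u, hu, cs', by simpa using hcs, fun d hd => hcY d ?_, rfl⟩, c,
          hcY c ?_, ln_append u cs' c⟩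
        · exact List.mem_append.2 (Or.inl hd)
        · exact List.mem_append.2 (Or.inr (List.mem_singleton.2 rfl))

theorem mlt2 (Y : Set L) (u : L) (cs : List L) : (∀ c ∈ cs, c ∈ Submodule.span F Y) →
    ln u cs ∈ Submodule.span F {z | ∃ ys : List L, ys.length = cs.length ∧ (∀ y ∈ ys, y ∈ Y) ∧
      z = ln u ys} := by
  induction cs using List.reverseRecOn with
  | nil =>
    intro _
    exact Submodule.subset_span ⟨[], rfl, fun c hc => absurd hc List.not_mem_nil, rfl⟩
  | append_singleton cs c ih =>
    intro h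
    have h1 := ih fun d hd => h d (List.mem_append.2 (Or.inl hd))
    have h2 := h c (List.mem_append.2 (Or.inr (List.mem_singleton.2 rfl)))
    rw [ln_append]
    have h3 : ⁅ln u cs, c⁆ ∈ br (Submodule.span F {z | ∃ ys : List L, ys.length = cs.length ∧
        (∀ y ∈ ys, y ∈ Y) ∧ z = ln u ys}) (Submodule.span F Y) :=
      Submodule.subset_span ⟨_, h1, _, h2, rfl⟩
    rw [br_span] at h3
    refine Submodule.span_mono ?_ h3
    rintro z ⟨x, ⟨ys, hys, hyY, rfl⟩, y, hy, rfl⟩
    refine ⟨ys ++ [y], by simp [hys], ?_, (ln_append u ys y).symm⟩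
    intro d hd
    rcases List.mem_append.1 hd with h | h
    · exact hyY d h
    · rw [List.mem_singleton.1 h]; exact hy

theorem mlt3 (cs : List L) : ∀ u u' : L, ln (u + u') cs = ln u cs + ln u' cs := by
  induction cs with
  | nil => intro u u'; rfl
  | cons c cs ih =>
    intro u u'
    show ln ⁅u + u', c⁆ cs = ln ⁅u, c⁆ cs + ln ⁅u', c⁆ cs
    rw [add_lie, ih]

theorem mlt4 (a : F) (cs : List L) : ∀ u : L, ln (a • u) cs = a • ln u cs := by
  induction cs with
  | nil => intro u; rfl
  | cons c cs ih =>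
    intro u
    show ln ⁅a • u, c⁆ cs = a • ln ⁅u, c⁆ cs
    rw [smul_lie, ih]

/-- **Row MLT** -/
theorem mlt : MltStmt := by
  intro F L _ _ _
  exact ⟨mlt1, mlt2, fun u u' cs => mlt3 cs u u', fun c u cs => mlt4 c cs u⟩

end Pool.Agent.ISB.H98
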